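import Pool.Agent.N469.PT.Gen
import Pool.Agent.TH872.An2

set_option autoImplicit false

/-! Prime tuples whose shifts have rearranged digits. -/

namespace Pool.Agent.N469.PT
open Finset
open Pool.Agent.H807R2.Dav
open Pool.Agent.H373R2.T7
open Pool.Agent.W93.AU
open Pool.Agent.TH872.An

open Classical in
/-- the probability that the rearranged integer is `v` -/
noncomputable def aw (b : ℕ) {k : ℕ} (d : Fin k → ℕ) (v : ℕ) : ℝ :=
  ∑ σ : Equiv.Perm (Fin k), if V b d σ = v then 1 / (k.factorial : ℝ) else 0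

/-- the class of the laws -/
def Ac (b B : ℕ) (η : ℝ) (N : ℕ) (Ω : Finset ℕ) (p : ℕ → ℝ) : Prop :=
  ∃ (k : ℕ) (d : Fin k → ℕ), b ^ k ≤ B * N ∧ N ≤ B * b ^ k ∧ Spread b k η d ∧ Ω = range (b ^ k) ∧ p = aw b d

lemma aw_nonneg (b : ℕ) {k : ℕ} (d : Fin k → ℕ) (v : ℕ) : 0 ≤ aw b d v := by
  unfold aw
  apply sum_nonneg
  intro σ _
  split_ifs
  · positivity
  · exact le_rfl

/-- averages -/
lemma aw_sum {b k : ℕ} {η : ℝ} {d : Fin k → ℕ} (hd : Spread b k η d) (hb : 0 < b) (F : ℕ → ℝ) :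
    ∑ v ∈ range (b ^ k), aw b d v * F v = ∑ σ : Equiv.Perm (Fin k), 1 / (k.factorial : ℝ) * F (V b d σ) := by
  unfold aw
  simp only [sum_mul]
  rw [sum_comm]
  apply sum_congr rfl
  intro σ _
  rw [sum_eq_single (V b d σ)]
  · rw [if_pos rfl]
  · intro v _ hv
    rw [if_neg (Ne.symm hv), zero_mul]
  · intro h
    exact absurd (mem_range.2 (V_lt hd hb σ)) h

lemma perm_one (k : ℕ) : ∑ _σ : Equiv.Perm (Fin k), 1 / (k.factorial : ℝ) = 1 := by
  rw [sum_const, card_univ, Fintype.card_perm, Fintype.card_fin, nsmul_eq_mul, mul_one_div, div_self]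
  exact_mod_cast k.factorial_ne_zero

lemma aw_total {b k : ℕ} {η : ℝ} {d : Fin k → ℕ} (hd : Spread b k η d) (hb : 0 < b) :
    ∑ v ∈ range (b ^ k), aw b d v = 1 := by
  have h := aw_sum hd hb (fun _ => 1)
  simp only [mul_one] at h
  rw [h, perm_one]

/-- no integer is probable -/
lemma aw_small (b B : ℕ) (hb : 2 ≤ b) (η : ℝ) (hη : 0 < η) (U : ℕ) : ∃ N₀ : ℕ, ∀ N, N₀ ≤ N → ∀ k : ℕ, N ≤ B * b ^ k →
    ∀ d : Fin k → ℕ, Spread b k η d → ∀ v, aw b d v ≤ 1 / Real.log N ^ U := by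
  have hB1 : (1 : ℝ) < b := by exact_mod_cast (by omega : 1 < b)
  have hb0 : (0 : ℝ) < b := by linarith
  have hbn : 0 < b := by omega
  have hlogb : 0 < Real.log b := Real.log_pos hB1
  obtain ⟨τ, hτ⟩ : ∃ τ : ℕ, (max (1 - η / 2) 0) ^ τ < (1 / (b : ℝ)) ^ (U + 1) :=
    exists_pow_lt_of_lt_one (show (0 : ℝ) < (1 / b) ^ (U + 1) by positivity) (max_lt (by linarith) one_pos)
  obtain ⟨τ', hτ'⟩ := exists_nat_ge (2 * (τ : ℝ) / η)
  obtain ⟨k3, hk3⟩ := Pool.Agent.TH872.Mir.room b hb (τ + τ') 4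
  obtain ⟨k4, hk4⟩ := exists_nat_ge (2 * (Real.log (B + 1) + Real.log b) ^ U)
  refine ⟨B * b ^ (k3 + k4 + 4) + 4, fun N hN k hk2 d hd v => ?_⟩
  have hk : k3 + k4 + 4 ≤ k := by
    by_contra hcon
    push Not at hcon
    have h1 : b ^ k ≤ b ^ (k3 + k4 + 4) := Nat.pow_le_pow_right hbn hcon.le
    have h2 := Nat.mul_le_mul_left B h1
    omega
  have hk0 : 0 < k := by omega
  have hη1 := eta_le hd hk0
  have hroom := hk3 k (by omega)
  obtain ⟨Lg, hLg⟩ : ∃ Lg, Lg = Nat.log b k := ⟨_, rfl⟩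
  rw [← hLg] at hroom
  obtain ⟨T, hT⟩ : ∃ T, T = τ * (Lg + 1) := ⟨_, rfl⟩
  have hsplit : (τ + τ') * (Lg + 1) = τ * (Lg + 1) + τ' * (Lg + 1) := by ring
  have hTk : T ≤ k := by omega
  have hT2 : (T : ℝ) ≤ η / 2 * k := by
    have e1 : ((τ' * (Lg + 1) : ℕ) : ℝ) ≤ k := by exact_mod_cast (by omega : τ' * (Lg + 1) ≤ k)
    have e2 : 2 * (τ : ℝ) ≤ τ' * η := by rwa [div_le_iff₀ hη] at hτ'
    have e4 := mul_le_mul_of_nonneg_right e2 (by positivity : (0 : ℝ) ≤ (Lg : ℝ) + 1)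
    have e5 := mul_le_mul_of_nonneg_left e1 (by linarith : 0 ≤ η / 2)
    rw [hT]
    push_cast at e4 e5 ⊢
    nlinarith
  classical
  have hint := an_interval hd hbn hη.le hk0 T hTk hT2 (fun σ => V b d σ = v) (by
    intro σ σ' h1 h2
    rw [h1, h2]
    have : 0 < b ^ (k - T) := Nat.pow_pos hbn
    omega)
  have h0 : aw b d v = ∑ σ : Equiv.Perm (Fin k), (if V b d σ = v then 1 / (k.factorial : ℝ) else 0) := by
    unfold aw
    apply sum_congr rfl
    intro σ _
    split_ifs <;> rfl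
  rw [h0]
  refine hint.trans ?_
  have hmax : max (1 - η / 2) 0 = 1 - η / 2 := max_eq_left (by linarith)
  rw [hmax] at hτ
  have h1 : (1 - η / 2) ^ T ≤ 1 / (k : ℝ) ^ (U + 1) := by
    rw [hT, hLg]
    exact Pool.Agent.TH872.Mir.pow_log' b hb _ (by linarith) _ _ hτ.le k hk0
  have hN0 : (0 : ℝ) < N := by exact_mod_cast (by omega : 0 < N)
  have hNpos : 1 < N := by omega
  have hlog0 : 0 < Real.log N := Real.log_pos (by exact_mod_cast hNpos)
  have hkr : (1 : ℝ) ≤ k := by exact_mod_cast hk0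
  have hB0 : (0 : ℝ) ≤ B := Nat.cast_nonneg _
  have hlogB : 0 ≤ Real.log ((B : ℝ) + 1) := Real.log_nonneg (by linarith)
  have hlogN : Real.log N ≤ (Real.log (B + 1) + Real.log b) * k := by
    have h5 : (N : ℝ) ≤ (B + 1) * (b : ℝ) ^ k := by
      have : (N : ℝ) ≤ B * (b : ℝ) ^ k := by exact_mod_cast hk2
      have h6 : 0 < (b : ℝ) ^ k := by positivity
      nlinarith
    have h6 : Real.log N ≤ Real.log ((B + 1) * (b : ℝ) ^ k) := Real.log_le_log hN0 h5
    rw [Real.log_mul (by linarith) (by positivity), Real.log_pow] at h6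
    have a1 := mul_le_mul_of_nonneg_left hkr hlogB
    linarith
  rw [le_div_iff₀ (by positivity)]
  have hkk : (k4 : ℝ) ≤ k := by exact_mod_cast (by omega : k4 ≤ k)
  calc 2 * (1 - η / 2) ^ T * Real.log N ^ U ≤ 2 * (1 / (k : ℝ) ^ (U + 1)) * ((Real.log (B + 1) + Real.log b) * k) ^ U := by
        apply mul_le_mul _ (pow_le_pow_left₀ hlog0.le hlogN U) (by positivity) (by positivity)
        linarith
    _ = (2 * (Real.log (B + 1) + Real.log b) ^ U) / k := by
        rw [mul_pow, pow_succ]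
        have : (k : ℝ) ≠ 0 := by linarith
        field_simp
    _ ≤ 1 := by
        rw [div_le_one (by linarith)]
        exact hk4.trans hkk

theorem anag_one (b B : ℕ) (hb : 2 ≤ b) (η : ℝ) (hη : 0 < η) (κκ : ℕ) (hκκ : 1 ≤ κκ) (Bc U : ℕ) :
    OneLaw (Ac b B η) κκ Bc U := by
  have hκz : ((κκ : ℕ) : ℤ) ≠ 0 := by exact_mod_cast (by omega : κκ ≠ 0)
  have hbn : 0 < b := by omega
  obtain ⟨e, he⟩ : ∃ e, e = B + (Bc * B + κκ) := ⟨_, rfl⟩
  have hbe : e < b ^ e := Nat.lt_pow_self (by omega)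
  obtain ⟨D, K2, hlaw⟩ := an_law b hb η hη (κκ : ℤ) e (2 * (U + 1) + 6)
  obtain ⟨B0, hone⟩ := one_gen b (FA b κκ) B (Bc * B + κκ) U D e hb (FA_pos b hb κκ hκz) (by omega)
  refine ⟨Bc + κκ * B, B0, fun E => ?_⟩
  obtain ⟨N1, h1⟩ := hone E
  obtain ⟨N2, h2⟩ := aw_small b B hb η hη U
  refine ⟨N1 + N2 + B * b ^ (K2 + 1) + 1, fun N hN Ω p hp cc hcc => ?_⟩
  obtain ⟨k, d, hk1, hk2, hd, rfl, rfl⟩ := hp
  have hk : K2 + 1 ≤ k := by
    by_contra hcon
    push Not at hcon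
    have h1 : b ^ k ≤ b ^ (K2 + 1) := Nat.pow_le_pow_right hbn hcon.le
    have h2 := Nat.mul_le_mul_left B h1
    omega
  refine ⟨fun v _ => aw_nonneg b d v, aw_total hd hbn, fun v _ => h2 N (by omega) k hk2 d hd v, ?_, ?_⟩
  · intro v hv
    rw [mem_range] at hv
    have h1 : κκ * v ≤ κκ * (B * N) := Nat.mul_le_mul_left _ (by omega)
    calc cc + κκ * v ≤ Bc * N + κκ * (B * N) := by omega
      _ = _ := by ring
  · intro z hz1 hz2 Kc hKc G hG
    rw [aw_sum hd hbn]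
    have h := h1 N (by omega) k hk1 hk2 (Equiv.Perm (Fin k)) univ (fun _ => 1 / (k.factorial : ℝ))
      (fun σ => cc + κκ * V b d σ) (by
        intro σ _
        have a1 : κκ * V b d σ ≤ κκ * b ^ k := Nat.mul_le_mul_left _ (V_lt hd hbn σ).le
        have a2 : cc ≤ Bc * (B * b ^ k) := hcc.trans (Nat.mul_le_mul_left _ hk2)
        calc cc + κκ * V b d σ ≤ Bc * (B * b ^ k) + κκ * b ^ k := by omega
          _ = _ := by ring) (by
        have := hlaw k (k + e) rfl (by omega) d hd (cc : ℤ)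
        refine ⟨this.nonneg, this.le_one, fun t ht => ?_⟩
        refine le_trans (le_of_eq ?_) (this.char t ht)
        congr 1) (perm_one k) z hz1 hz2 Kc hKc G hG
    exact h

open Classical in
/-- the number of exceptional vectors of permutations -/
lemma anag_count (s : ℕ) (b k : Fin s → ℕ) (hb : ∀ i, 2 ≤ b i) (η : ℝ) (d : ∀ i, Fin (k i) → ℕ) (hd : ∀ i, Spread (b i) (k i) η (d i))
    (P : (Fin s → ℕ) → Prop) (δ : ℝ)
    (h : ∑ v ∈ Fintype.piFinset (fun i => range (b i ^ k i)), (if P v then ∏ i, aw (b i) (d i) (v i) else 0) ≤ δ) :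
    ((univ.filter (fun σ : ∀ i, Equiv.Perm (Fin (k i)) => P (fun i => V (b i) (d i) (σ i)))).card : ℝ) ≤
      (∏ i, ((k i).factorial : ℝ)) * δ := by
  have hfac : ∀ i, (0 : ℝ) < ((k i).factorial : ℝ) := fun i => by exact_mod_cast (k i).factorial_pos
  have h1 : ∀ v ∈ Fintype.piFinset (fun i => range (b i ^ k i)), (if P v then ∏ i, aw (b i) (d i) (v i) else 0) =
      (∏ i, (1 / ((k i).factorial : ℝ))) * ∑ σ : (∀ i, Equiv.Perm (Fin (k i))),
        (if P v ∧ (fun i => V (b i) (d i) (σ i)) = v then (1 : ℝ) else 0) := by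
    intro v _
    by_cases hP : P v
    · rw [if_pos hP]
      unfold aw
      rw [Finset.prod_univ_sum, mul_sum, ← Fintype.piFinset_univ]
      apply sum_congr rfl
      intro σ _
      rw [Finset.prod_ite_zero]
      by_cases c : (fun i => V (b i) (d i) (σ i)) = v
      · rw [if_pos (fun i _ => congrFun c i), if_pos ⟨hP, c⟩, mul_one]
      · rw [if_neg (fun hc => c (funext fun i => hc i (mem_univ i))), if_neg (fun hc => c hc.2), mul_zero]
    · rw [if_neg hP]
      rw [sum_eq_zero, mul_zero]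
      intro σ _
      rw [if_neg (fun hc => hP hc.1)]
  rw [sum_congr rfl h1, ← mul_sum, sum_comm] at h
  have h2 : ∑ σ : (∀ i, Equiv.Perm (Fin (k i))), ∑ v ∈ Fintype.piFinset (fun i => range (b i ^ k i)),
      (if P v ∧ (fun i => V (b i) (d i) (σ i)) = v then (1 : ℝ) else 0) =
      ((univ.filter (fun σ : ∀ i, Equiv.Perm (Fin (k i)) => P (fun i => V (b i) (d i) (σ i)))).card : ℝ) := by
    rw [card_filter, Nat.cast_sum]
    apply sum_congr rfl
    intro σ _
    rw [sum_eq_single (fun i => V (b i) (d i) (σ i))]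
    · by_cases c : P (fun i => V (b i) (d i) (σ i))
      · rw [if_pos ⟨c, rfl⟩, if_pos c]; norm_num
      · rw [if_neg (fun hc => c hc.1), if_neg c]; norm_num
    · intro v _ hv
      rw [if_neg (fun hc => hv hc.2.symm)]
    · intro hc
      exfalso
      apply hc
      rw [Fintype.mem_piFinset]
      intro i
      exact mem_range.2 (V_lt (hd i) (by have := hb i; omega) (σ i))
  rw [h2, prod_div_distrib, prod_const_one] at h
  have h3 : (0 : ℝ) < ∏ i, ((k i).factorial : ℝ) := prod_pos fun i _ => hfac i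
  rw [one_div, ← div_eq_inv_mul, div_le_iff₀ h3] at h
  linarith

end Pool.Agent.N469.PT
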