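import Pool.Agent.TH872.Pal

set_option autoImplicit false

/-! The distribution of an integer with mirror-dependent digits. -/

namespace Pool.Agent.N469.PT
open Finset
open Pool.Agent.TH872.Mir

/-- the probability of the integer `v < b ^ k`, if its pairs of mirror digits have the distributions `w j` and its
middle digit has the distribution `u` -/
noncomputable def weight (b k : ℕ) (w : ℕ → ℕ × ℕ → ℝ) (u : ℕ → ℝ) (v : ℕ) : ℝ :=
  (∏ j ∈ range (k / 2), w j (v / b ^ j % b, v / b ^ (k - 1 - j) % b)) * (if k % 2 = 1 then u (v / b ^ (k / 2) % b) else 1)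

/-- the digits -/
def gdig (m s : ℕ) (g : Fin m → ℕ × ℕ) (z j : ℕ) : ℕ :=
  if j < m then (ext g j).1 else if j < m + s then z else (ext g (2 * m + s - 1 - j)).2

lemma gdig_lt (b m s : ℕ) (g : Fin m → ℕ × ℕ) (hg : g ∈ Gs b m) (z : ℕ) (hz : z < b) (j : ℕ) (hj : j < 2 * m + s) :
    gdig m s g z j < b := by
  unfold gdig
  split_ifs with h1 h2
  · exact (ext_lt g hg j h1).1
  · exact hz
  · exact (ext_lt g hg _ (by omega)).2

lemma gval_eq (b m s : ℕ) (hs : s ≤ 1) (g : Fin m → ℕ × ℕ) (z : ℕ) :
    val b (2 * m + s) g + s * z * b ^ m = ∑ j ∈ range (2 * m + s), gdig m s g z j * b ^ j := by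
  rw [split_sum m s (fun j => gdig m s g z j * b ^ j), val_eq, ← sum_add_distrib]
  congr 1
  · apply sum_congr rfl
    intro i hi
    rw [mem_range] at hi
    have h1 : gdig m s g z i = (ext g i).1 := by
      unfold gdig; rw [if_pos hi]
    have h2 : gdig m s g z (2 * m + s - 1 - i) = (ext g i).2 := by
      unfold gdig
      rw [if_neg (by omega), if_neg (by omega)]
      congr 2
      omega
    rw [h1, h2]
  · have h0 : s = 0 ∨ s = 1 := by omega
    rcases h0 with rfl | rfl
    · simp
    · simp only [one_mul, sum_range_one, add_zero]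
      have : gdig m 1 g z m = z := by
        unfold gdig
        rw [if_neg (by omega), if_pos (by omega)]
      rw [this]

lemma gval_lt (b m s : ℕ) (hb : 0 < b) (hs : s ≤ 1) (g : Fin m → ℕ × ℕ) (hg : g ∈ Gs b m) (z : ℕ) (hz : z < b) :
    val b (2 * m + s) g + s * z * b ^ m < b ^ (2 * m + s) := by
  rw [gval_eq b m s hs]
  exact sum_lt_pow b _ _ (fun i hi => gdig_lt b m s g hg z hz i hi)

lemma gval_digit (b m s : ℕ) (hb : 0 < b) (hs : s ≤ 1) (g : Fin m → ℕ × ℕ) (hg : g ∈ Gs b m) (z : ℕ) (hz : z < b) (j : ℕ)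
    (hj : j < 2 * m + s) : (val b (2 * m + s) g + s * z * b ^ m) / b ^ j % b = gdig m s g z j := by
  rw [gval_eq b m s hs]
  exact digit_sum b hb _ _ (fun i hi => gdig_lt b m s g hg z hz i hi) j hj

/-- the pairs of digits of an integer -/
def split (b m s v : ℕ) : Fin m → ℕ × ℕ := fun i => (v / b ^ (i : ℕ) % b, v / b ^ (2 * m + s - 1 - (i : ℕ)) % b)

/-- the middle digit -/
def mid (b m s v : ℕ) : ℕ := if s = 0 then 0 else v / b ^ m % b

lemma split_mem (b m s v : ℕ) (hb : 0 < b) : split b m s v ∈ Gs b m := by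
  unfold Gs Q split
  rw [Fintype.mem_piFinset]
  intro i
  rw [mem_product, mem_range, mem_range]
  exact ⟨Nat.mod_lt _ hb, Nat.mod_lt _ hb⟩

lemma mid_mem (b m s v : ℕ) (hb : 0 < b) : mid b m s v ∈ Zs b s := by
  unfold mid Zs
  split_ifs
  · exact mem_singleton_self _
  · exact mem_range.2 (Nat.mod_lt _ hb)

lemma ext_eq {m : ℕ} (g : Fin m → ℕ × ℕ) (i : ℕ) (hi : i < m) : Pool.Agent.TH872.Mir.ext g i = g ⟨i, hi⟩ := by
  unfold Pool.Agent.TH872.Mir.ext; rw [dif_pos hi]

lemma split_inv (b m s v : ℕ) (hb : 0 < b) (hs : s ≤ 1) (hv : v < b ^ (2 * m + s)) :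
    val b (2 * m + s) (split b m s v) + s * (mid b m s v) * b ^ m = v := by
  have hd : ∀ j ∈ range (2 * m + s), gdig m s (split b m s v) (mid b m s v) j * b ^ j = v / b ^ j % b * b ^ j := by
    intro j hj
    congr 1
    rw [mem_range] at hj
    unfold gdig
    by_cases h1 : j < m
    · rw [if_pos h1, ext_eq _ j h1]; rfl
    · by_cases h2 : j < m + s
      · rw [if_neg h1, if_pos h2]
        unfold mid
        rw [if_neg (by omega)]
        have : j = m := by omega
        rw [this]
      · rw [if_neg h1, if_neg h2, ext_eq _ (2 * m + s - 1 - j) (by omega)]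
        unfold split
        simp only
        congr 3
        omega
  rw [gval_eq b m s hs, sum_congr rfl hd]
  exact sum_digits b hb _ v hv

lemma inv_split (b m s : ℕ) (hb : 0 < b) (hs : s ≤ 1) (g : Fin m → ℕ × ℕ) (hg : g ∈ Gs b m) (z : ℕ) (hz : z ∈ Zs b s) :
    split b m s (val b (2 * m + s) g + s * z * b ^ m) = g ∧ mid b m s (val b (2 * m + s) g + s * z * b ^ m) = z := by
  have hz' := mem_Zs b s z hb hz
  constructor
  · funext i
    have hi := i.2
    unfold split
    rw [gval_digit b m s hb hs g hg z hz' i (by omega), gval_digit b m s hb hs g hg z hz' _ (by omega)]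
    unfold gdig
    rw [if_pos hi, if_neg (by omega), if_neg (by omega)]
    have h1 : 2 * m + s - 1 - (2 * m + s - 1 - (i : ℕ)) = i := by omega
    rw [h1, ext_eq g i hi]
  · unfold mid
    have h0 : s = 0 ∨ s = 1 := by omega
    rcases h0 with rfl | rfl
    · rw [if_pos rfl]
      unfold Zs at hz
      rw [if_pos rfl, mem_singleton] at hz
      exact hz.symm
    · rw [if_neg one_ne_zero, gval_digit b m 1 hb le_rfl g hg z hz' m (by omega)]
      unfold gdig
      rw [if_neg (by omega), if_pos (by omega)]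

lemma weight_val (b m s : ℕ) (hb : 0 < b) (hs : s ≤ 1) (w : ℕ → ℕ × ℕ → ℝ) (u : ℕ → ℝ) (v : ℕ) :
    weight b (2 * m + s) w u v = pw w (split b m s v) * (if s = 1 then u (mid b m s v) else 1) := by
  unfold weight
  have h1 : (2 * m + s) / 2 = m := by omega
  have h2 : (2 * m + s) % 2 = s := by omega
  rw [h1, h2]
  congr 1
  · unfold pw split
    rw [← Fin.prod_univ_eq_prod_range (fun j => w j (v / b ^ j % b, v / b ^ (2 * m + s - 1 - j) % b)) m]
  · unfold mid
    split_ifs with h3 h4
    · omega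
    · rfl
    · rfl

/-- averages over the integers and over the strings of digits -/
theorem weight_sum (b m s : ℕ) (hb : 0 < b) (hs : s ≤ 1) (w : ℕ → ℕ × ℕ → ℝ) (u : ℕ → ℝ) (hu : ∑ a ∈ range b, u a = 1) (F : ℕ → ℝ) :
    ∑ v ∈ range (b ^ (2 * m + s)), weight b (2 * m + s) w u v * F v =
      ∑ z ∈ range b, u z * ∑ g ∈ Gs b m, pw w g * F (val b (2 * m + s) g + s * z * b ^ m) := by
  have h1 : ∑ v ∈ range (b ^ (2 * m + s)), weight b (2 * m + s) w u v * F v =
      ∑ x ∈ Gs b m ×ˢ Zs b s, (pw w x.1 * (if s = 1 then u x.2 else 1)) * F (val b (2 * m + s) x.1 + s * x.2 * b ^ m) := by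
    symm
    apply sum_bij' (fun x _ => val b (2 * m + s) x.1 + s * x.2 * b ^ m) (fun v _ => (split b m s v, mid b m s v))
    · intro x hx
      rw [mem_product] at hx
      exact mem_range.2 (gval_lt b m s hb hs x.1 hx.1 x.2 (mem_Zs b s x.2 hb hx.2))
    · intro v _
      rw [mem_product]
      exact ⟨split_mem b m s v hb, mid_mem b m s v hb⟩
    · intro x hx
      rw [mem_product] at hx
      have := inv_split b m s hb hs x.1 hx.1 x.2 hx.2
      exact Prod.ext this.1 this.2
    · intro v hv
      exact split_inv b m s v hb hs (mem_range.1 hv)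
    · intro x hx
      rw [mem_product] at hx
      have := inv_split b m s hb hs x.1 hx.1 x.2 hx.2
      rw [weight_val b m s hb hs, this.1, this.2]
  rw [h1, sum_product_right]
  have h0 : s = 0 ∨ s = 1 := by omega
  rcases h0 with rfl | rfl
  · have e1 : Zs b 0 = {0} := by unfold Zs; rw [if_pos rfl]
    rw [e1, sum_singleton]
    have e2 : ∀ z ∈ range b, u z * ∑ g ∈ Gs b m, pw w g * F (val b (2 * m + 0) g + 0 * z * b ^ m) =
        u z * ∑ g ∈ Gs b m, pw w g * F (val b (2 * m + 0) g) := by
      intro z _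
      simp only [zero_mul, add_zero]
    rw [sum_congr rfl e2, ← sum_mul, hu, one_mul]
    apply sum_congr rfl
    intro g _
    simp
  · have e1 : Zs b 1 = range b := by unfold Zs; rw [if_neg one_ne_zero]
    rw [e1]
    apply sum_congr rfl
    intro z _
    rw [mul_sum]
    apply sum_congr rfl
    intro g _
    rw [if_pos rfl]
    ring

lemma weight_nonneg (b m s : ℕ) (hb : 0 < b) (hs : s ≤ 1) (η : ℝ) (w : ℕ → ℕ × ℕ → ℝ) (u : ℕ → ℝ) (hw : Mirr b m η w)
    (hu : ∀ a, 0 ≤ u a) (v : ℕ) : 0 ≤ weight b (2 * m + s) w u v := by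
  rw [weight_val b m s hb hs]
  apply mul_nonneg (pw_nonneg hw _)
  split_ifs
  · exact hu _
  · exact zero_le_one

lemma weight_total (b m s : ℕ) (hb : 0 < b) (hs : s ≤ 1) (η : ℝ) (w : ℕ → ℕ × ℕ → ℝ) (u : ℕ → ℝ) (hw : Mirr b m η w)
    (hu : ∑ a ∈ range b, u a = 1) : ∑ v ∈ range (b ^ (2 * m + s)), weight b (2 * m + s) w u v = 1 := by
  have h := weight_sum b m s hb hs w u hu (fun _ => 1)
  simp only [mul_one] at h
  rw [h, pw_sum hw]
  simp only [mul_one]
  exact hu

/-- the probability of a given integer -/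
lemma weight_le (b m s : ℕ) (hb : 0 < b) (hs : s ≤ 1) (η : ℝ) (hη : 0 ≤ η) (hη2 : η ≤ 2) (w : ℕ → ℕ × ℕ → ℝ) (u : ℕ → ℝ) (hw : Mirr b m η w)
    (hu0 : ∀ a, 0 ≤ u a) (hu : ∑ a ∈ range b, u a = 1) (v : ℕ) :
    weight b (2 * m + s) w u v ≤ (1 - η / 2) ^ (m - 1) := by
  rw [weight_val b m s hb hs]
  have hmid : (if s = 1 then u (mid b m s v) else 1) ≤ 1 := by
    split_ifs with h
    · rw [← hu]
      apply single_le_sum (fun a _ => hu0 a)
      unfold mid
      rw [if_neg (by omega)]
      exact mem_range.2 (Nat.mod_lt _ hb)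
    · exact le_rfl
  have hpw : pw w (split b m s v) ≤ (1 - η / 2) ^ (m - 1) := by
    unfold pw
    have h1 : ∀ i ∈ (univ : Finset (Fin m)), w (i : ℕ) (split b m s v i) ≤ if 1 ≤ (i : ℕ) then 1 - η / 2 else 1 := by
      intro i _
      have hmem : split b m s v i ∈ Q b := by
        have := split_mem b m s v hb
        unfold Gs at this
        rw [Fintype.mem_piFinset] at this
        exact this i
      split_ifs with hi
      · refine le_trans ?_ (coord_prob b (w i) (hw.nonneg i i.2) (hw.sum i i.2) η hη (hw.mir i i.2 hi) (split b m s v i).2)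
        have := single_le_sum (f := fun x : ℕ × ℕ => if x.2 = (split b m s v i).2 then w i x else 0) (s := Q b) (fun x _ => by
          split_ifs
          · exact hw.nonneg i i.2 x
          · exact le_rfl) hmem
        simp only [if_true] at this
        exact this
      · rw [← hw.sum i i.2]
        exact single_le_sum (fun x _ => hw.nonneg i i.2 x) hmem
    refine (prod_le_prod (fun (i : Fin m) _ => hw.nonneg i i.2 _) h1).trans ?_
    rw [Finset.prod_ite, prod_const_one, mul_one, prod_const]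
    apply le_of_eq
    congr 1
    have h3 : (univ.filter (fun i : Fin m => 1 ≤ (i : ℕ))).card = (Ico 1 m).card := by
      apply card_bij (fun (i : Fin m) _ => (i : ℕ))
      · intro i hi
        rw [mem_filter] at hi
        rw [mem_Ico]
        exact ⟨hi.2, i.2⟩
      · intro i _ j _ h
        exact Fin.ext h
      · intro j hj
        rw [mem_Ico] at hj
        exact ⟨⟨j, by omega⟩, by rw [mem_filter]; exact ⟨mem_univ _, hj.1⟩, rfl⟩
    rw [h3, Nat.card_Ico]
  calc pw w (split b m s v) * (if s = 1 then u (mid b m s v) else 1) ≤ pw w (split b m s v) * 1 :=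
        mul_le_mul_of_nonneg_left hmid (pw_nonneg hw _)
    _ = pw w (split b m s v) := mul_one _
    _ ≤ _ := hpw

end Pool.Agent.N469.PT
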