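import Pool.Agent.N469.PT.Ws
import Pool.Agent.N469.PT.Dig
import Pool.Agent.TH872.Mir4

set_option autoImplicit false

/-! The one shift estimate for an arbitrary law whose characteristic function is small at the frequencies with many digits. -/

namespace Pool.Agent.N469.PT
open Finset
open Pool.Agent.H807R2.Dav
open Pool.Agent.H373R2.T7
open Pool.Agent.W93.AU

/-- the one shift estimate -/
theorem one_gen (b F B A U D e : ℕ) (hb : 2 ≤ b) (hF : 1 ≤ F) (he : B + A ≤ b ^ e) :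
    ∃ B0 : ℕ, ∀ E : ℕ, ∃ N₀ : ℕ, ∀ N, N₀ ≤ N → ∀ k : ℕ, b ^ k ≤ B * N → N ≤ B * b ^ k →
    ∀ (ι : Type) (Ω : Finset ι) (p : ι → ℝ) (Y : ι → ℕ), (∀ ω ∈ Ω, Y ω ≤ A * b ^ k) →
    Law b F D (2 * (U + 1) + 6) (k + e) Ω p (fun ω => ((Y ω : ℕ) : ℤ)) → ∑ ω ∈ Ω, p ω = 1 →
    ∀ z : ℕ, Real.log N ^ B0 ≤ z → (z : ℝ) ≤ Real.log N ^ E → ∀ Kc : ℝ, 0 < Kc → ∀ G : ℕ → ℝ, (∀ n ∈ Icc 1 N, |G n| ≤ Kc) →
        ∑ ω ∈ Ω, p ω * |∑ n ∈ Icc 1 N, G n * (lamI ((n : ℤ) + ((Y ω : ℕ) : ℤ)) - lamzI z ((n : ℤ) + ((Y ω : ℕ) : ℤ)))| ≤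
          Kc * (N / Real.log N ^ U) := by
  have hbn : 0 < b := by omega
  have hB1 : (1 : ℝ) < b := by exact_mod_cast (by omega : 1 < b)
  have hb0 : (0 : ℝ) < b := by linarith
  have hlogB : 0 < Real.log b := Real.log_pos hB1
  obtain ⟨B0, hone⟩ := one_law b F hb hF (U + 1) D
  refine ⟨B0 + 1, fun E => ?_⟩
  obtain ⟨K0, hK0⟩ := hone E
  obtain ⟨K1, hK1⟩ := exists_nat_ge ((b : ℝ) ^ e * B * Real.log b ^ U + 1)
  obtain ⟨R, hR⟩ := exists_nat_ge ((2 : ℝ) ^ B0 + Real.log ((b : ℝ) ^ e * (B + 1)) + 1)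
  refine ⟨B * b ^ (K0 + K1 + 5) + 3 ^ R + 3, fun N hN k hk1 hk2 ι Ω p Y hY hlaw hp1 z hz1 hz2 Kc hKc G hG => ?_⟩
  obtain ⟨P3, hP3⟩ : ∃ P3 : ℕ, P3 = 3 ^ R := ⟨_, rfl⟩
  rw [← hP3] at hN
  have hk : K0 + K1 + 5 ≤ k := by
    by_contra hcon
    push Not at hcon
    have h1 : b ^ k ≤ b ^ (K0 + K1 + 5) := Nat.pow_le_pow_right hbn hcon.le
    have h2 := Nat.mul_le_mul_left B h1
    omega
  have hNpos : 1 < N := by omega
  have hN0 : (0 : ℝ) < N := by exact_mod_cast (by omega : 0 < N)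
  have hlog0 : 0 < Real.log N := Real.log_pos (by exact_mod_cast hNpos)
  obtain ⟨K, hK⟩ : ∃ K, K = k + e := ⟨_, rfl⟩
  rw [← hK] at hlaw
  have hKr : (K1 : ℝ) ≤ K := by exact_mod_cast (by omega : K1 ≤ K)
  have hK0' : (1 : ℝ) ≤ K := by exact_mod_cast (by omega : 1 ≤ K)
  have hkK : b ^ k * b ^ e = b ^ K := by rw [← pow_add, hK]
  have hsize : ∀ ω ∈ Ω, N + Y ω ≤ b ^ K := by
    intro ω hω
    calc N + Y ω ≤ B * b ^ k + A * b ^ k := add_le_add hk2 (hY ω hω)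
      _ = (B + A) * b ^ k := by ring
      _ ≤ b ^ e * b ^ k := Nat.mul_le_mul_right _ he
      _ = b ^ K := by rw [mul_comm, hkK]
  have hNX : N ≤ b ^ K := by
    calc N ≤ B * b ^ k := hk2
      _ ≤ b ^ e * b ^ k := Nat.mul_le_mul_right _ (by omega)
      _ = b ^ K := by rw [mul_comm, hkK]
  have hlogK : Real.log N ≤ K * Real.log b := by
    rw [← Real.log_pow]
    apply Real.log_le_log hN0
    exact_mod_cast hNX
  have hBKN : ((b ^ K : ℕ) : ℝ) ≤ (b : ℝ) ^ e * B * N := by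
    have : b ^ K ≤ b ^ e * B * N := by
      rw [← hkK, mul_comm, mul_assoc]
      exact Nat.mul_le_mul_left _ hk1
    exact_mod_cast this
  have hU : Real.log N ^ U ≤ (K : ℝ) ^ U * Real.log b ^ U := by
    rw [← mul_pow]
    exact pow_le_pow_left₀ hlog0.le hlogK U
  have hBK : ((b ^ K : ℕ) : ℝ) / (K : ℝ) ^ (U + 1) ≤ N / Real.log N ^ U := by
    rw [div_le_div_iff₀ (by positivity) (by positivity)]
    calc ((b ^ K : ℕ) : ℝ) * Real.log N ^ U ≤ ((b : ℝ) ^ e * B * N) * ((K : ℝ) ^ U * Real.log b ^ U) :=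
          mul_le_mul hBKN hU (by positivity) (by positivity)
      _ = N * (((b : ℝ) ^ e * B * Real.log b ^ U) * (K : ℝ) ^ U) := by ring
      _ ≤ N * (K * (K : ℝ) ^ U) := by
          apply mul_le_mul_of_nonneg_left _ hN0.le
          exact mul_le_mul_of_nonneg_right (by linarith) (by positivity)
      _ = _ := by rw [pow_succ]; ring
  have hlogR : (R : ℝ) ≤ Real.log N := by
    rw [Real.le_log_iff_exp_le hN0]
    have h1 : Real.exp (R : ℝ) ≤ (3 : ℝ) ^ R := by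
      rw [show (R : ℝ) = R * 1 by ring, Real.exp_nat_mul]
      exact pow_le_pow_left₀ (Real.exp_pos _).le (by linarith [Real.exp_one_lt_d9]) R
    refine h1.trans ?_
    exact_mod_cast (by rw [← hP3]; omega : 3 ^ R ≤ N)
  have hlX1 : Real.log N ≤ Real.log ((b ^ K : ℕ) : ℝ) := Real.log_le_log hN0 (by exact_mod_cast hNX)
  have hB0r : (0 : ℝ) ≤ B := Nat.cast_nonneg _
  have hc1 : 0 ≤ Real.log ((b : ℝ) ^ e * (B + 1)) := by
    apply Real.log_nonneg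
    have h1 : 1 ≤ (b : ℝ) ^ e := one_le_pow₀ hB1.le
    nlinarith
  have hlX2 : Real.log ((b ^ K : ℕ) : ℝ) ≤ 2 * Real.log N := by
    have h1 : Real.log ((b ^ K : ℕ) : ℝ) ≤ Real.log (((b : ℝ) ^ e * (B + 1)) * N) := by
      apply Real.log_le_log
      · exact_mod_cast (by positivity : 0 < b ^ K)
      · refine hBKN.trans ?_
        apply mul_le_mul_of_nonneg_right _ hN0.le
        apply mul_le_mul_of_nonneg_left _ (by positivity)
        linarith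
    rw [Real.log_mul (by positivity) hN0.ne'] at h1
    have h2 : (0 : ℝ) < 2 ^ B0 := by positivity
    linarith
  have hzX1 : Real.log ((b ^ K : ℕ) : ℝ) ^ B0 ≤ z := by
    refine le_trans ?_ hz1
    calc Real.log ((b ^ K : ℕ) : ℝ) ^ B0 ≤ (2 * Real.log N) ^ B0 := pow_le_pow_left₀ (by linarith) hlX2 _
      _ = 2 ^ B0 * Real.log N ^ B0 := mul_pow _ _ _
      _ ≤ Real.log N * Real.log N ^ B0 := by
          apply mul_le_mul_of_nonneg_right _ (by positivity)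
          linarith
      _ = Real.log N ^ (B0 + 1) := by ring
  have hzX2 : (z : ℝ) ≤ Real.log ((b ^ K : ℕ) : ℝ) ^ E := hz2.trans (pow_le_pow_left₀ hlog0.le hlX1 _)
  have h := hK0 K (by omega) z hzX1 hzX2 ι Ω p (fun ω => ((Y ω : ℕ) : ℤ)) hlaw hp1 N (fun ω hω => ⟨by
    have : (0 : ℤ) < ((b ^ K : ℕ) : ℤ) := by exact_mod_cast (by positivity : 0 < b ^ K)
    have h2 : (0 : ℤ) ≤ ((Y ω : ℕ) : ℤ) := by positivity
    linarith, by exact_mod_cast hsize ω hω⟩) hNX Kc hKc G hG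
  exact h.trans (mul_le_mul_of_nonneg_left hBK hKc.le)

end Pool.Agent.N469.PT
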