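import Pool.Agent.N469.PT.Ws
import Pool.Agent.N469.PT.Dig
import Pool.Agent.TH872.Mir4

set_option autoImplicit false

/-! The one shift estimate for random integers with mirror-dependent digits. -/

namespace Pool.Agent.N469.PT
open Finset
open Pool.Agent.H807R2.Dav
open Pool.Agent.H373R2.T7
open Pool.Agent.W93.DG
open Pool.Agent.W93.RD
open Pool.Agent.W93.AU
open Pool.Agent.TH872.Mir

/-- the class of the laws -/
def Mc (b B : ℕ) (η : ℝ) (N : ℕ) (Ω : Finset ℕ) (p : ℕ → ℝ) : Prop :=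
  ∃ (k : ℕ) (w : ℕ → ℕ × ℕ → ℝ) (u : ℕ → ℝ), b ^ k ≤ B * N ∧ N ≤ B * b ^ k ∧ Mirr b (k / 2) η w ∧ (∀ a, 0 ≤ u a) ∧
    ∑ a ∈ range b, u a = 1 ∧ Ω = range (b ^ k) ∧ p = weight b k w u

/-- exponential decay beats powers of the logarithm -/
lemma decay (b B U : ℕ) (hb : 2 ≤ b) (l : ℝ) (hl0 : 0 ≤ l) (hl1 : l < 1) : ∃ m₀ : ℕ, ∀ m s N : ℕ, m₀ ≤ m → s ≤ 1 → 1 ≤ N →
    N ≤ B * b ^ (2 * m + s) → l ^ (m - 1) * Real.log N ^ U ≤ 1 := by
  have hb1 : (1 : ℝ) < b := by exact_mod_cast (by omega : 1 < b)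
  have hlogb : 0 < Real.log b := Real.log_pos hb1
  obtain ⟨C, hC⟩ : ∃ C : ℝ, C = Real.log (B + 1) + 5 * Real.log b := ⟨_, rfl⟩
  have hlogB : 0 ≤ Real.log ((B : ℝ) + 1) := Real.log_nonneg (by have : (0 : ℝ) ≤ B := Nat.cast_nonneg _; linarith)
  have hC0 : 0 < C := by rw [hC]; positivity
  have hlim := tendsto_pow_const_mul_const_pow_of_abs_lt_one U (r := l) (by rw [abs_of_nonneg hl0]; exact hl1)
  have h2 := (hlim.const_mul ((2 * C) ^ U)).eventually (gt_mem_nhds (show (2 * C) ^ U * 0 < 1 by rw [mul_zero]; norm_num))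
  rw [Filter.eventually_atTop] at h2
  obtain ⟨n0, h2⟩ := h2
  refine ⟨n0 + 2, fun m s N hm hs hN1 hN => ?_⟩
  have h3 := h2 (m - 1) (by omega)
  have hN0 : (0 : ℝ) < N := by exact_mod_cast hN1
  have hB0 : (0 : ℝ) ≤ B := Nat.cast_nonneg _
  have hb0 : (0 : ℝ) < b := by linarith
  have h4 : Real.log N ≤ 2 * C * ((m - 1 : ℕ) : ℝ) := by
    have h5 : (N : ℝ) ≤ (B + 1) * (b : ℝ) ^ (2 * m + s) := by
      have : (N : ℝ) ≤ B * (b : ℝ) ^ (2 * m + s) := by exact_mod_cast hN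
      have h6 : 0 < (b : ℝ) ^ (2 * m + s) := by positivity
      nlinarith
    have h6 : Real.log N ≤ Real.log ((B + 1) * (b : ℝ) ^ (2 * m + s)) := Real.log_le_log hN0 h5
    rw [Real.log_mul (by linarith) (by positivity), Real.log_pow] at h6
    have h7 : ((2 * m + s : ℕ) : ℝ) ≤ 5 * ((m - 1 : ℕ) : ℝ) := by
      exact_mod_cast (by omega : 2 * m + s ≤ 5 * (m - 1))
    have h8 : (1 : ℝ) ≤ ((m - 1 : ℕ) : ℝ) := by exact_mod_cast (by omega : 1 ≤ m - 1)
    calc Real.log N ≤ Real.log (B + 1) + ((2 * m + s : ℕ) : ℝ) * Real.log b := h6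
      _ ≤ Real.log (B + 1) * ((m - 1 : ℕ) : ℝ) + 5 * ((m - 1 : ℕ) : ℝ) * Real.log b := by
          have a1 := mul_le_mul_of_nonneg_left h8 hlogB
          have a2 := mul_le_mul_of_nonneg_right h7 hlogb.le
          linarith
      _ = C * ((m - 1 : ℕ) : ℝ) := by rw [hC]; ring
      _ ≤ _ := by
          have : 0 ≤ C * ((m - 1 : ℕ) : ℝ) := by positivity
          linarith
  have h5 : 0 ≤ Real.log N := Real.log_natCast_nonneg _
  calc l ^ (m - 1) * Real.log N ^ U ≤ l ^ (m - 1) * (2 * C * ((m - 1 : ℕ) : ℝ)) ^ U := by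
        apply mul_le_mul_of_nonneg_left (pow_le_pow_left₀ h5 h4 U) (by positivity)
    _ = (2 * C) ^ U * (((m - 1 : ℕ) : ℝ) ^ U * l ^ (m - 1)) := by rw [mul_pow]; ring
    _ ≤ 1 := h3.le

theorem mirror_one (b B : ℕ) (hb : 2 ≤ b) (η : ℝ) (hη : 0 < η) (κκ : ℕ) (hκκ : 1 ≤ κκ) (Bc U : ℕ) :
    OneLaw (Mc b B η) κκ Bc U := by
  have hκz : ((κκ : ℕ) : ℤ) ≠ 0 := by exact_mod_cast (by omega : κκ ≠ 0)
  have hbn : 0 < b := by omega
  have hB1 : (1 : ℝ) < b := by exact_mod_cast (by omega : 1 < b)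
  have hb0 : (0 : ℝ) < b := by linarith
  have hlogB : 0 < Real.log b := Real.log_pos hB1
  -- the number of additional digits
  obtain ⟨e, he⟩ : ∃ e, e = B + Bc * B + 3 * κκ := ⟨_, rfl⟩
  have hbe : e < b ^ e := Nat.lt_pow_self (by omega)
  -- the laws for both parities
  have hD : ∀ s : ℕ, ∃ D : ℕ, ∀ m K : ℕ, K = 2 * m + s + e → 1 ≤ K →
    ∀ w : ℕ → ℕ × ℕ → ℝ, Mirr b m η w → ∀ cc : ℤ,
    Law b (FF0 b κκ) D (2 * (U + 1) + 6) K (Gs b m) (pw w) (fun g => cc + (κκ : ℤ) * (val b (2 * m + s) g : ℕ)) :=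
    fun s => mir_law b hb η hη (κκ : ℤ) e s (2 * (U + 1) + 6)
  choose D hlaw using hD
  have hone := fun s : ℕ => one_law b (FF0 b κκ) hb (FF0_pos b κκ hκz) (U + 1) (D s)
  choose B0 hone using hone
  refine ⟨Bc + κκ * B, B0 0 + B0 1 + 1, fun E => ?_⟩
  have hone' := fun s : ℕ => hone s E
  choose K0 hK0 using hone'
  obtain ⟨K1, hK1⟩ := exists_nat_ge ((b : ℝ) ^ e * B * Real.log b ^ U + 1)
  obtain ⟨m₀, hdec⟩ := decay b B U hb (max (1 - η / 2) 0) (le_max_right _ _) (max_lt (by linarith) one_pos)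
  obtain ⟨R, hR⟩ := exists_nat_ge ((2 : ℝ) ^ (B0 0 + B0 1) + Real.log ((b : ℝ) ^ e * (B + 1)) + 1)
  refine ⟨B * b ^ (K0 0 + K0 1 + K1 + 2 * m₀ + 5) + 3 ^ R + 3, fun N hN Ω p hp cc hcc => ?_⟩
  obtain ⟨k, w, u, hk1, hk2, hw, hu0, hu1, rfl, rfl⟩ := hp
  obtain ⟨P3, hP3⟩ : ∃ P3 : ℕ, P3 = 3 ^ R := ⟨_, rfl⟩
  rw [← hP3] at hN
  -- the digits
  have hk : K0 0 + K0 1 + K1 + 2 * m₀ + 5 ≤ k := by
    by_contra hcon
    push Not at hcon
    have h1 : b ^ k ≤ b ^ (K0 0 + K0 1 + K1 + 2 * m₀ + 5) := Nat.pow_le_pow_right hbn hcon.le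
    have h2 := Nat.mul_le_mul_left B h1
    omega
  obtain ⟨m, hm⟩ : ∃ m, m = k / 2 := ⟨_, rfl⟩
  obtain ⟨s, hs⟩ : ∃ s, s = k % 2 := ⟨_, rfl⟩
  have hs1 : s ≤ 1 := by omega
  have hkms : k = 2 * m + s := by omega
  have hw' : Mirr b m η w := by rw [hm]; exact hw
  rw [hkms]
  have hη1 : η ≤ 1 := eta_le hw' (by omega)
  have hNpos : 1 < N := by omega
  have hN0 : (0 : ℝ) < N := by exact_mod_cast (by omega : 0 < N)
  have hlog0 : 0 < Real.log N := Real.log_pos (by exact_mod_cast hNpos)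
  have hmax : max (1 - η / 2) 0 = 1 - η / 2 := max_eq_left (by linarith)
  rw [hmax] at hdec
  refine ⟨fun v _ => weight_nonneg b m s hbn hs1 η w u hw' hu0 v, weight_total b m s hbn hs1 η w u hw' hu1, ?_, ?_, ?_⟩
  · intro v _
    refine (weight_le b m s hbn hs1 η hη.le (by linarith) w u hw' hu0 hu1 v).trans ?_
    rw [le_div_iff₀ (by positivity)]
    exact hdec m s N (by omega) hs1 (by omega) (by rw [← hkms]; exact hk2)
  · intro v hv
    rw [mem_range, ← hkms] at hv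
    have h1 : κκ * v ≤ κκ * (B * N) := Nat.mul_le_mul_left _ (by omega)
    calc cc + κκ * v ≤ Bc * N + κκ * (B * N) := by omega
      _ = _ := by ring
  · intro z hz1 hz2 Kc hKc G hG
    obtain ⟨K, hK⟩ : ∃ K, K = 2 * m + s + e := ⟨_, rfl⟩
    have hKr : (K1 : ℝ) ≤ K := by exact_mod_cast (by omega : K1 ≤ K)
    have hK0' : (1 : ℝ) ≤ K := by exact_mod_cast (by omega : 1 ≤ K)
    have hkK : b ^ k * b ^ e = b ^ K := by rw [← pow_add]; congr 1; omega
    have hsz : ∀ z' : ℕ, z' < b → s * z' * b ^ m ≤ b ^ k := by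
      intro z' hz'
      have h0 : s = 0 ∨ s = 1 := by omega
      rcases h0 with h0 | h0
      · rw [h0, zero_mul, zero_mul]; exact Nat.zero_le _
      · rw [h0]
        calc 1 * z' * b ^ m = z' * b ^ m := by ring
          _ ≤ b * b ^ m := Nat.mul_le_mul_right _ hz'.le
          _ = b ^ (m + 1) := by ring
          _ ≤ _ := Nat.pow_le_pow_right hbn (by omega)
    have hsize : ∀ z' : ℕ, z' < b → ∀ g ∈ Gs b m, N + (cc + κκ * (s * z' * b ^ m) + κκ * val b (2 * m + s) g) ≤ b ^ K := by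
      intro z' hz' g hg
      have h1 := hsz z' hz'
      have h2 := val_lt b m s hbn g hg
      rw [← hkms] at h2
      have h3 : κκ * (s * z' * b ^ m) ≤ κκ * b ^ k := Nat.mul_le_mul_left _ h1
      have h4 : κκ * val b (2 * m + s) g ≤ κκ * (2 * b ^ k) := Nat.mul_le_mul_left _ (by rw [← hkms]; exact h2.le)
      have h5 : cc ≤ Bc * (B * b ^ k) := hcc.trans (Nat.mul_le_mul_left _ hk2)
      calc N + (cc + κκ * (s * z' * b ^ m) + κκ * val b (2 * m + s) g) ≤
            B * b ^ k + (Bc * (B * b ^ k) + κκ * b ^ k + κκ * (2 * b ^ k)) := by omega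
        _ = e * b ^ k := by rw [he]; ring
        _ ≤ b ^ e * b ^ k := Nat.mul_le_mul_right _ hbe.le
        _ = b ^ K := by rw [mul_comm, hkK]
    have hNX : N ≤ b ^ K := by
      have h1 : B ≤ e := by rw [he]; omega
      calc N ≤ B * b ^ k := hk2
        _ ≤ b ^ e * b ^ k := Nat.mul_le_mul_right _ (by omega)
        _ = b ^ K := by rw [mul_comm, hkK]
    have hlogK : Real.log N ≤ K * Real.log b := by
      rw [← Real.log_pow]
      apply Real.log_le_log hN0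
      exact_mod_cast hNX
    have hBKN : ((b ^ K : ℕ) : ℝ) ≤ (b : ℝ) ^ e * B * N := by
      have : b ^ K ≤ b ^ e * B * N := by
        rw [← hkK, mul_comm, mul_assoc]
        exact Nat.mul_le_mul_left _ hk1
      exact_mod_cast this
    have hU : Real.log N ^ U ≤ (K : ℝ) ^ U * Real.log b ^ U := by
      rw [← mul_pow]
      exact pow_le_pow_left₀ hlog0.le hlogK U
    have hBK : ((b ^ K : ℕ) : ℝ) / (K : ℝ) ^ (U + 1) ≤ N / Real.log N ^ U := by
      rw [div_le_div_iff₀ (by positivity) (by positivity)]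
      calc ((b ^ K : ℕ) : ℝ) * Real.log N ^ U ≤ ((b : ℝ) ^ e * B * N) * ((K : ℝ) ^ U * Real.log b ^ U) :=
            mul_le_mul hBKN hU (by positivity) (by positivity)
        _ = N * (((b : ℝ) ^ e * B * Real.log b ^ U) * (K : ℝ) ^ U) := by ring
        _ ≤ N * (K * (K : ℝ) ^ U) := by
            apply mul_le_mul_of_nonneg_left _ hN0.le
            exact mul_le_mul_of_nonneg_right (by linarith) (by positivity)
        _ = _ := by rw [pow_succ]; ring
    have hlogR : (R : ℝ) ≤ Real.log N := by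
      rw [Real.le_log_iff_exp_le hN0]
      have h1 : Real.exp (R : ℝ) ≤ (3 : ℝ) ^ R := by
        rw [show (R : ℝ) = R * 1 by ring, Real.exp_nat_mul]
        exact pow_le_pow_left₀ (Real.exp_pos _).le (by linarith [Real.exp_one_lt_d9]) R
      refine h1.trans ?_
      exact_mod_cast (by rw [← hP3]; omega : 3 ^ R ≤ N)
    have hlX1 : Real.log N ≤ Real.log ((b ^ K : ℕ) : ℝ) := Real.log_le_log hN0 (by exact_mod_cast hNX)
    have hB0r : (0 : ℝ) ≤ B := Nat.cast_nonneg _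
    have hc1 : 0 ≤ Real.log ((b : ℝ) ^ e * (B + 1)) := by
      apply Real.log_nonneg
      have h1 : 1 ≤ (b : ℝ) ^ e := one_le_pow₀ hB1.le
      nlinarith
    have hlX2 : Real.log ((b ^ K : ℕ) : ℝ) ≤ 2 * Real.log N := by
      have h1 : Real.log ((b ^ K : ℕ) : ℝ) ≤ Real.log (((b : ℝ) ^ e * (B + 1)) * N) := by
        apply Real.log_le_log
        · exact_mod_cast (by positivity : 0 < b ^ K)
        · refine hBKN.trans ?_
          apply mul_le_mul_of_nonneg_right _ hN0.le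
          apply mul_le_mul_of_nonneg_left _ (by positivity)
          linarith
      rw [Real.log_mul (by positivity) hN0.ne'] at h1
      have h2 : (0 : ℝ) < 2 ^ (B0 0 + B0 1) := by positivity
      linarith
    have hlogN1 : 1 ≤ Real.log N := by
      have h2 : (0 : ℝ) < 2 ^ (B0 0 + B0 1) := by positivity
      linarith
    have hzX1 : Real.log ((b ^ K : ℕ) : ℝ) ^ (B0 s) ≤ z := by
      refine le_trans ?_ hz1
      have hBs : B0 s ≤ B0 0 + B0 1 := by
        have h0 : s = 0 ∨ s = 1 := by omega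
        rcases h0 with h0 | h0 <;> rw [h0] <;> omega
      calc Real.log ((b ^ K : ℕ) : ℝ) ^ (B0 s) ≤ (2 * Real.log N) ^ (B0 s) := pow_le_pow_left₀ (by linarith) hlX2 _
        _ ≤ (2 * Real.log N) ^ (B0 0 + B0 1) := pow_le_pow_right₀ (by linarith) hBs
        _ = 2 ^ (B0 0 + B0 1) * Real.log N ^ (B0 0 + B0 1) := mul_pow _ _ _
        _ ≤ Real.log N * Real.log N ^ (B0 0 + B0 1) := by
            apply mul_le_mul_of_nonneg_right _ (by positivity)
            linarith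
        _ = Real.log N ^ (B0 0 + B0 1 + 1) := by ring
    have hzX2 : (z : ℝ) ≤ Real.log ((b ^ K : ℕ) : ℝ) ^ E := hz2.trans (pow_le_pow_left₀ hlog0.le hlX1 _)
    have hKK : K0 s ≤ K := by
      have h0 : s = 0 ∨ s = 1 := by omega
      rcases h0 with h0 | h0 <;> rw [h0] <;> omega
    have key : ∀ z' ∈ range b, ∑ g ∈ Gs b m, pw w g * |∑ n ∈ Icc 1 N, G n *
        (lamI ((n : ℤ) + ((cc + κκ * (val b (2 * m + s) g + s * z' * b ^ m) : ℕ) : ℤ)) -
          lamzI z ((n : ℤ) + ((cc + κκ * (val b (2 * m + s) g + s * z' * b ^ m) : ℕ) : ℤ)))| ≤ Kc * (N / Real.log N ^ U) := by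
      intro z' hz'
      rw [mem_range] at hz'
      have h := hK0 s K hKK z hzX1 hzX2 (Fin m → ℕ × ℕ) (Gs b m) (pw w)
        (fun g => ((cc + κκ * (s * z' * b ^ m) : ℕ) : ℤ) + (κκ : ℤ) * (val b (2 * m + s) g : ℕ))
        (hlaw s m K hK (by omega) w hw' _) (pw_sum hw') N (fun g hg => ⟨by
          have : (0 : ℤ) < ((b ^ K : ℕ) : ℤ) := by exact_mod_cast (by positivity : 0 < b ^ K)
          have h2 : (0 : ℤ) ≤ ((cc + κκ * (s * z' * b ^ m) : ℕ) : ℤ) + (κκ : ℤ) * (val b (2 * m + s) g : ℕ) := by positivity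
          linarith, by
          exact_mod_cast hsize z' hz' g hg⟩) hNX Kc hKc G hG
      refine le_trans (le_of_eq ?_) (h.trans (mul_le_mul_of_nonneg_left hBK hKc.le))
      apply sum_congr rfl
      intro g _
      have e1 : ((cc + κκ * (val b (2 * m + s) g + s * z' * b ^ m) : ℕ) : ℤ) =
          ((cc + κκ * (s * z' * b ^ m) : ℕ) : ℤ) + (κκ : ℤ) * (val b (2 * m + s) g : ℕ) := by
        push_cast
        ring
      rw [e1]
    rw [weight_sum b m s hbn hs1 w u hu1]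
    calc ∑ z' ∈ range b, u z' * ∑ g ∈ Gs b m, pw w g * |∑ n ∈ Icc 1 N, G n *
        (lamI ((n : ℤ) + ((cc + κκ * (val b (2 * m + s) g + s * z' * b ^ m) : ℕ) : ℤ)) -
          lamzI z ((n : ℤ) + ((cc + κκ * (val b (2 * m + s) g + s * z' * b ^ m) : ℕ) : ℤ)))|
        ≤ ∑ z' ∈ range b, u z' * (Kc * (N / Real.log N ^ U)) :=
          sum_le_sum fun z' hz' => mul_le_mul_of_nonneg_left (key z' hz') (hu0 z')
      _ = _ := by rw [← sum_mul, hu1, one_mul]

end Pool.Agent.N469.PT
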