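import Pool.Agent.N469.PT.One

set_option autoImplicit false

/-! Prime tuples with palindromic shifts. -/

namespace Pool.Agent.N469.PT
open Finset
open Pool.Agent.TH872.Mir
open Pool.Agent.W93.TD

lemma card_X (b j : ℕ) (hb : 2 ≤ b) : 0 < (if j = 0 then Ico 1 b else range b : Finset ℕ).card := by
  split_ifs
  · rw [Nat.card_Ico]; omega
  · rw [card_range]; omega

open Classical in
/-- the palindromes are equally probable -/
lemma weight_pal (b m s : ℕ) (hb : 2 ≤ b) (hm : 1 ≤ m) (hs : s ≤ 1) : ∃ c : ℝ, 0 < c ∧ ∀ v, v < b ^ (2 * m + s) →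
    weight b (2 * m + s) (w0 b) (fun _ => 1 / (b : ℝ)) v = if IsPal b (2 * m + s) v then c else 0 := by
  have hbn : 0 < b := by omega
  have hb0 : (0 : ℝ) < b := by exact_mod_cast hbn
  refine ⟨(∏ j ∈ range m, 1 / ((if j = 0 then Ico 1 b else range b : Finset ℕ).card : ℝ)) * (if s = 1 then 1 / (b : ℝ) else 1), ?_, ?_⟩
  · apply mul_pos
    · apply prod_pos
      intro j _
      have : (0 : ℝ) < ((if j = 0 then Ico 1 b else range b : Finset ℕ).card : ℝ) := by exact_mod_cast card_X b j hb
      positivity
    · split_ifs <;> positivity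
  · intro v hv
    have h1 : (2 * m + s) / 2 = m := by omega
    have h2 : (2 * m + s) % 2 = s := by omega
    unfold weight
    rw [h1, h2]
    by_cases hp : IsPal b (2 * m + s) v
    · rw [if_pos hp]
      congr 1
      apply prod_congr rfl
      intro j hj
      rw [mem_range] at hj
      have h3 := hp.2.2 j (by omega)
      unfold w0
      rw [if_pos]
      refine ⟨h3, ?_⟩
      by_cases hj0 : j = 0
      · rw [if_pos hj0, mem_Ico]
        simp only
        refine ⟨?_, Nat.mod_lt _ hbn⟩
        rw [h3, hj0, Nat.sub_zero]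
        have h4 : v / b ^ (2 * m + s - 1) < b := by
          rw [Nat.div_lt_iff_lt_mul (by positivity), ← pow_succ']
          have : 2 * m + s - 1 + 1 = 2 * m + s := by omega
          rw [this]; exact hv
        rw [Nat.mod_eq_of_lt h4, Nat.one_le_div_iff (by positivity)]
        exact hp.1
      · rw [if_neg hj0, mem_range]
        exact Nat.mod_lt _ hbn
    · rw [if_neg hp]
      by_contra hne
      apply hp
      have hprod : ∏ j ∈ range m, w0 b j (v / b ^ j % b, v / b ^ (2 * m + s - 1 - j) % b) ≠ 0 := by
        intro h0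
        rw [h0, zero_mul] at hne
        exact hne rfl
      rw [prod_ne_zero_iff] at hprod
      have hfac : ∀ j < m, v / b ^ j % b = v / b ^ (2 * m + s - 1 - j) % b ∧
          v / b ^ j % b ∈ (if j = 0 then Ico 1 b else range b : Finset ℕ) := by
        intro j hj
        have := hprod j (mem_range.2 hj)
        unfold w0 at this
        by_contra hc
        rw [if_neg hc] at this
        exact this rfl
      refine ⟨?_, hv, ?_⟩
      · have h3 := hfac 0 (by omega)
        rw [if_pos rfl, mem_Ico] at h3
        have h4 : 1 ≤ v / b ^ (2 * m + s - 1) % b := by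
          have := h3.1
          rw [Nat.sub_zero] at this
          rw [← this]
          exact h3.2.1
        have h5 : 1 ≤ v / b ^ (2 * m + s - 1) := h4.trans (Nat.mod_le _ _)
        exact (Nat.one_le_div_iff (by positivity)).1 h5
      · intro j hj
        rcases Nat.lt_or_ge j m with h3 | h3
        · exact (hfac j h3).1
        · rcases Nat.lt_or_ge (2 * m + s - 1 - j) m with h4 | h4
          · have h5 := (hfac _ h4).1
            have h6 : 2 * m + s - 1 - (2 * m + s - 1 - j) = j := by omega
            rw [h6] at h5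
            exact h5.symm
          · have h5 : j = 2 * m + s - 1 - j := by omega
            rw [← h5]

open Classical in
/-- the number of exceptional vectors of palindromes -/
lemma pals_count (s : ℕ) (b k : Fin s → ℕ) (hb : ∀ i, 2 ≤ b i) (hk : ∀ i, 2 ≤ k i) (P : (Fin s → ℕ) → Prop) (δ : ℝ)
    (h : ∑ v ∈ Fintype.piFinset (fun i => range (b i ^ k i)),
      (if P v then ∏ i, weight (b i) (k i) (w0 (b i)) (fun _ => 1 / (b i : ℝ)) (v i) else 0) ≤ δ) :
    (((Fintype.piFinset (fun i => Pals (b i) (k i))).filter P).card : ℝ) ≤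
      ((Fintype.piFinset (fun i => Pals (b i) (k i))).card : ℝ) * δ := by
  have hex : ∀ i, ∃ c : ℝ, 0 < c ∧ ∀ v, v < b i ^ k i →
      weight (b i) (k i) (w0 (b i)) (fun _ => 1 / (b i : ℝ)) v = if IsPal (b i) (k i) v then c else 0 := by
    intro i
    have h1 : k i = 2 * (k i / 2) + k i % 2 := by omega
    have h2 := hk i
    have := weight_pal (b i) (k i / 2) (k i % 2) (hb i) (by omega) (by omega)
    rwa [← h1] at this
  choose c hc hcv using hex
  have htot : ∀ i, ((Pals (b i) (k i)).card : ℝ) * c i = 1 := by
    intro i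
    have h1 : k i = 2 * (k i / 2) + k i % 2 := by omega
    have hb0 : (0 : ℝ) < b i := by exact_mod_cast (by have := hb i; omega : 0 < b i)
    have h2 := weight_total (b i) (k i / 2) (k i % 2) (by have := hb i; omega) (by omega) _ (w0 (b i)) (fun _ => 1 / (b i : ℝ))
      (w0_mirr (b i) (k i / 2) (hb i)) (by rw [sum_const, card_range, nsmul_eq_mul, mul_one_div, div_self hb0.ne'])
    rw [← h1] at h2
    rw [← h2, sum_congr rfl (fun v hv => hcv i v (mem_range.1 hv)), ← sum_filter, sum_const, nsmul_eq_mul]
    rfl
  have hsub : (Fintype.piFinset (fun i => Pals (b i) (k i))).filter P ⊆ Fintype.piFinset (fun i => range (b i ^ k i)) := by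
    intro v hv
    rw [mem_filter, Fintype.mem_piFinset] at hv
    rw [Fintype.mem_piFinset]
    intro i
    exact (mem_filter.1 (hv.1 i)).1
  have hnn : ∀ v ∈ Fintype.piFinset (fun i => range (b i ^ k i)),
      0 ≤ ∏ i, weight (b i) (k i) (w0 (b i)) (fun _ => 1 / (b i : ℝ)) (v i) := by
    intro v hv
    rw [Fintype.mem_piFinset] at hv
    apply prod_nonneg
    intro i _
    rw [hcv i (v i) (mem_range.1 (hv i))]
    split_ifs
    · exact (hc i).le
    · exact le_rfl
  have hlow : (((Fintype.piFinset (fun i => Pals (b i) (k i))).filter P).card : ℝ) * ∏ i, c i ≤ δ := by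
    refine le_trans (le_of_eq ?_) ((sum_le_sum_of_subset_of_nonneg hsub (fun v hv _ => ?_)).trans h)
    · rw [← nsmul_eq_mul, ← sum_const]
      apply sum_congr rfl
      intro v hv
      rw [mem_filter, Fintype.mem_piFinset] at hv
      rw [if_pos hv.2]
      apply prod_congr rfl
      intro i _
      have h1 := mem_filter.1 (hv.1 i)
      rw [hcv i (v i) (mem_range.1 h1.1), if_pos h1.2]
    · split_ifs
      · exact hnn v hv
      · exact le_rfl
  have hF : ((Fintype.piFinset (fun i => Pals (b i) (k i))).card : ℝ) * ∏ i, c i = 1 := by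
    rw [Fintype.card_piFinset, Nat.cast_prod, ← prod_mul_distrib]
    exact prod_eq_one fun i _ => htot i
  have hF0 : (0 : ℝ) ≤ ((Fintype.piFinset (fun i => Pals (b i) (k i))).card : ℝ) := Nat.cast_nonneg _
  calc (((Fintype.piFinset (fun i => Pals (b i) (k i))).filter P).card : ℝ)
      = (((Fintype.piFinset (fun i => Pals (b i) (k i))).filter P).card : ℝ) *
        (((Fintype.piFinset (fun i => Pals (b i) (k i))).card : ℝ) * ∏ i, c i) := by rw [hF, mul_one]
    _ = ((Fintype.piFinset (fun i => Pals (b i) (k i))).card : ℝ) *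
        ((((Fintype.piFinset (fun i => Pals (b i) (k i))).filter P).card : ℝ) * ∏ i, c i) := by ring
    _ ≤ _ := mul_le_mul_of_nonneg_left hlow hF0

end Pool.Agent.N469.PT
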